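import Pool.Agent.Helper15.BP.Ent

/-!
# Conditional laws on a finite weighted space

`condW w U u` is the law `w` conditioned on `U = u`, `twoW w U` the law of two trials which are
conditionally independent given `U`.  Conditional entropies are averages of entropies of
conditional laws.
-/

set_option autoImplicit false

namespace Pool.Agent.Helper25.PF

open Finset Pool.Agent.Helper15.BP

variable {Ω Ω' α β γ δ : Type*} [Fintype Ω] [Fintype Ω']

/-- the weights conditioned on `U = u` -/
noncomputable def condW (w : Ω → ℝ) (U : Ω → γ) (u : γ) : Ω → ℝ := by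
  classical exact fun o => if U o = u then w o / pr w U u else 0

/-- two trials with the same value of `U`, conditionally independent -/
noncomputable def twoW (w : Ω → ℝ) (U : Ω → γ) : Ω × Ω → ℝ := by
  classical exact fun p => if U p.1 = U p.2 then w p.1 * w p.2 / pr w U (U p.1) else 0

theorem condW_nonneg {w : Ω → ℝ} (hw : IsPr w) (U : Ω → γ) (u : γ) (o : Ω) :
    0 ≤ condW w U u o := by
  unfold condW
  split_ifs
  · exact div_nonneg (hw.nonneg o) (pr_nonneg hw U u)
  · exact le_rfl

theorem condW_isPr {w : Ω → ℝ} (hw : IsPr w) (U : Ω → γ) {u : γ} (hu : 0 < pr w U u) :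
    IsPr (condW w U u) := by
  classical
  refine ⟨condW_nonneg hw U u, ?_⟩
  have h1 : ∀ o, condW w U u o = (if U o = u then w o else 0) / pr w U u := by
    intro o
    unfold condW
    by_cases h : U o = u
    · rw [if_pos h, if_pos h]
    · rw [if_neg h, if_neg h, zero_div]
  rw [Finset.sum_congr rfl fun o _ => h1 o, ← Finset.sum_div]
  have h2 : ∑ o, (if U o = u then w o else 0) = pr w U u := by
    unfold pr
    exact Finset.sum_congr rfl fun o _ => by congr
  rw [h2, div_self hu.ne']

theorem pr_condW {w : Ω → ℝ} (U : Ω → γ) (u : γ) (f : Ω → α) (a : α) :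
    pr (condW w U u) f a = pr w (fun o => (f o, U o)) (a, u) / pr w U u := by
  classical
  have h2 : pr w (fun o => (f o, U o)) (a, u) = ∑ o, if (f o, U o) = (a, u) then w o else 0 := by
    unfold pr
    exact Finset.sum_congr rfl fun o _ => by congr
  have h3 : pr (condW w U u) f a = ∑ o, if f o = a then condW w U u o else 0 := by
    unfold pr
    exact Finset.sum_congr rfl fun o _ => by congr
  rw [h2, h3, Finset.sum_div]
  refine Finset.sum_congr rfl fun o _ => ?_
  unfold condW
  by_cases h1 : f o = a <;> by_cases h4 : U o = u <;> simp [h1, h4]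

/-- sum over the event `U = u` of `w o / pr w U u` is one -/
theorem sum_condW {w : Ω → ℝ} (hw : IsPr w) (U : Ω → γ) {o : Ω} (ho : 0 < w o) :
    ∑ o', condW w U (U o) o' = 1 :=
  (condW_isPr hw U (pr_pos hw U ho)).sum_one

/-- the tower property -/
theorem tower {w : Ω → ℝ} (hw : IsPr w) (U : Ω → γ) (F : γ → Ω → ℝ) :
    ∑ o, w o * (∑ o', condW w U (U o) o' * F (U o) o') = ∑ o, w o * F (U o) o := by
  classical
  have h1 : ∀ o, w o * (∑ o', condW w U (U o) o' * F (U o) o') =
      ∑ o', (if U o = U o' then w o * w o' / pr w U (U o') * F (U o') o' else 0) := by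
    intro o
    rw [Finset.mul_sum]
    refine Finset.sum_congr rfl fun o' _ => ?_
    unfold condW
    by_cases h : U o' = U o
    · rw [if_pos h, if_pos h.symm, h]; ring
    · rw [if_neg h, if_neg (fun h' => h h'.symm)]; ring
  rw [Finset.sum_congr rfl fun o _ => h1 o, Finset.sum_comm]
  refine Finset.sum_congr rfl fun o' _ => ?_
  have h2 : ∑ o, (if U o = U o' then w o * w o' / pr w U (U o') * F (U o') o' else 0) =
      (∑ o, if U o = U o' then w o else 0) * (w o' / pr w U (U o') * F (U o') o') := by
    rw [Finset.sum_mul]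
    refine Finset.sum_congr rfl fun o _ => ?_
    by_cases h : U o = U o'
    · rw [if_pos h, if_pos h]; ring
    · rw [if_neg h, if_neg h]; ring
  have h3 : (∑ o, if U o = U o' then w o else 0) = pr w U (U o') := by
    unfold pr
    exact Finset.sum_congr rfl fun o _ => by congr
  rw [h2, h3]
  rcases (hw.nonneg o').eq_or_lt with h0 | h0
  · rw [← h0]; ring
  · have h4 := pr_pos hw U h0
    field_simp

/-- `Ent` of a pair with `U`, minus `Ent` of `U`, is the average entropy of the conditional laws -/
theorem Ent_cond {w : Ω → ℝ} (hw : IsPr w) (f : Ω → α) (U : Ω → γ) :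
    Ent w (fun o => (f o, U o)) - Ent w U = ∑ o, w o * Ent (condW w U (U o)) f := by
  have h1 : ∀ o, w o * Ent (condW w U (U o)) f =
      w o * (∑ o', condW w U (U o) o' *
        (fun u o' => -Real.log (pr (condW w U u) f (f o'))) (U o) o') := by
    intro o; rfl
  rw [Finset.sum_congr rfl fun o _ => h1 o,
    tower hw U (fun u o' => -Real.log (pr (condW w U u) f (f o')))]
  unfold Ent
  rw [← Finset.sum_sub_distrib]
  refine Finset.sum_congr rfl fun o _ => ?_
  rw [pr_condW, ← mul_sub]
  rcases (hw.nonneg o).eq_or_lt with h0 | h0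
  · rw [← h0, zero_mul, zero_mul]
  · rw [Real.log_div (pr_pos hw (fun o => (f o, U o)) h0).ne' (pr_pos hw U h0).ne']
    ring

/-! ### Two trials -/

theorem twoW_nonneg {w : Ω → ℝ} (hw : IsPr w) (U : Ω → γ) (p : Ω × Ω) : 0 ≤ twoW w U p := by
  unfold twoW
  split_ifs
  · exact div_nonneg (mul_nonneg (hw.nonneg _) (hw.nonneg _)) (pr_nonneg hw U _)
  · exact le_rfl

theorem twoW_eq {w : Ω → ℝ} (U : Ω → γ) (p : Ω × Ω) :
    twoW w U p = w p.1 * condW w U (U p.1) p.2 := by
  unfold twoW condW
  by_cases h : U p.1 = U p.2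
  · rw [if_pos h, if_pos h.symm]; ring
  · rw [if_neg h, if_neg (fun h' => h h'.symm)]; ring

/-- the first marginal of the two trials -/
theorem sum_twoW_fst {w : Ω → ℝ} (hw : IsPr w) (U : Ω → γ) (F : Ω → ℝ) :
    ∑ p, twoW w U p * F p.1 = ∑ o, w o * F o := by
  rw [Fintype.sum_prod_type]
  refine Finset.sum_congr rfl fun o _ => ?_
  have h1 : ∀ o', twoW w U (o, o') * F o = w o * F o * condW w U (U o) o' := by
    intro o'
    rw [twoW_eq]; ring
  simp only [h1]
  rw [← Finset.mul_sum]
  rcases (hw.nonneg o).eq_or_lt with h0 | h0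
  · rw [← h0]; ring
  · rw [sum_condW hw U h0, mul_one]

theorem twoW_swap {w : Ω → ℝ} (U : Ω → γ) (p : Ω × Ω) : twoW w U p.swap = twoW w U p := by
  unfold twoW
  by_cases h : U p.1 = U p.2
  · rw [if_pos (show U p.swap.1 = U p.swap.2 from h.symm), if_pos h]
    simp only [Prod.fst_swap, Prod.snd_swap]
    rw [← h]; ring
  · rw [if_neg (fun h' : U p.swap.1 = U p.swap.2 => h h'.symm), if_neg h]

/-- the second marginal of the two trials -/
theorem sum_twoW_snd {w : Ω → ℝ} (hw : IsPr w) (U : Ω → γ) (F : Ω → ℝ) :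
    ∑ p, twoW w U p * F p.2 = ∑ o, w o * F o := by
  rw [← sum_twoW_fst hw U F]
  refine Fintype.sum_equiv (Equiv.prodComm Ω Ω) _ _ fun p => ?_
  have : (Equiv.prodComm Ω Ω) p = p.swap := rfl
  rw [this, twoW_swap]
  rfl

theorem twoW_isPr {w : Ω → ℝ} (hw : IsPr w) (U : Ω → γ) : IsPr (twoW w U) := by
  refine ⟨twoW_nonneg hw U, ?_⟩
  have h := sum_twoW_fst hw U (fun _ => 1)
  simp only [mul_one] at h
  rw [h, hw.sum_one]

theorem pr_two_fst {w : Ω → ℝ} (hw : IsPr w) (U : Ω → γ) (f : Ω → α) (a : α) :
    pr (twoW w U) (fun p => f p.1) a = pr w f a := by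
  classical
  have h1 := sum_twoW_fst hw U (fun o => if f o = a then 1 else 0)
  have h2 : pr (twoW w U) (fun p => f p.1) a = ∑ p, twoW w U p * (if f p.1 = a then 1 else 0) := by
    unfold pr
    refine Finset.sum_congr rfl fun p _ => ?_
    by_cases h : f p.1 = a <;> simp [h]
  have h3 : pr w f a = ∑ o, w o * (if f o = a then 1 else 0) := by
    unfold pr
    refine Finset.sum_congr rfl fun p _ => ?_
    by_cases h : f p = a <;> simp [h]
  rw [h2, h3, h1]

theorem pr_two_snd {w : Ω → ℝ} (hw : IsPr w) (U : Ω → γ) (f : Ω → α) (a : α) :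
    pr (twoW w U) (fun p => f p.2) a = pr w f a := by
  classical
  have h1 := sum_twoW_snd hw U (fun o => if f o = a then 1 else 0)
  have h2 : pr (twoW w U) (fun p => f p.2) a = ∑ p, twoW w U p * (if f p.2 = a then 1 else 0) := by
    unfold pr
    refine Finset.sum_congr rfl fun p _ => ?_
    by_cases h : f p.2 = a <;> simp [h]
  have h3 : pr w f a = ∑ o, w o * (if f o = a then 1 else 0) := by
    unfold pr
    refine Finset.sum_congr rfl fun p _ => ?_
    by_cases h : f p = a <;> simp [h]
  rw [h2, h3, h1]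

/-- entropies of functions of the first trial -/
theorem Ent_two_fst {w : Ω → ℝ} (hw : IsPr w) (U : Ω → γ) (f : Ω → α) :
    Ent (twoW w U) (fun p => f p.1) = Ent w f := by
  unfold Ent
  rw [← sum_twoW_fst hw U (fun o => -Real.log (pr w f (f o)))]
  exact Finset.sum_congr rfl fun p _ => by rw [pr_two_fst hw]

/-- entropies of functions of the second trial -/
theorem Ent_two_snd {w : Ω → ℝ} (hw : IsPr w) (U : Ω → γ) (f : Ω → α) :
    Ent (twoW w U) (fun p => f p.2) = Ent w f := by
  unfold Ent
  rw [← sum_twoW_snd hw U (fun o => -Real.log (pr w f (f o)))]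
  exact Finset.sum_congr rfl fun p _ => by rw [pr_two_snd hw]

/-- conditioning the two trials on the common value gives the product of the conditional laws -/
theorem condW_twoW {w : Ω → ℝ} (hw : IsPr w) (U : Ω → γ) (u : γ) (hu : 0 < pr w U u) :
    condW (twoW w U) (fun p => U p.1) u = prodW (condW w U u) (condW w U u) := by
  funext p
  have h1 : pr (twoW w U) (fun p => U p.1) u = pr w U u := pr_two_fst hw U U u
  have h5 : condW (twoW w U) (fun p => U p.1) u p =
      (by classical exact if U p.1 = u then twoW w U p / pr w U u else 0) := by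
    unfold condW
    rw [h1]
  rw [h5]
  unfold condW prodW twoW
  simp only
  by_cases h : U p.1 = u
  · by_cases h' : U p.2 = u
    · rw [if_pos h, if_pos (h.trans h'.symm), if_pos h, if_pos h', h]
      field_simp
    · rw [if_pos h, if_neg (fun h2 => h' (h2.symm.trans h)), if_neg h']
      simp
  · rw [if_neg h, if_neg h]
    simp

/-- `H(f | U)` for a function `f` of two conditionally independent trials -/
theorem Ent_two {w : Ω → ℝ} (hw : IsPr w) (f : Ω × Ω → α) (U : Ω → γ) :
    Ent (twoW w U) (fun p => (f p, U p.1)) - Ent w U =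
      ∑ o, w o * Ent (prodW (condW w U (U o)) (condW w U (U o))) f := by
  rw [← Ent_two_fst hw U U, Ent_cond (twoW_isPr hw U) f (fun p => U p.1)]
  have h1 : ∀ p : Ω × Ω, twoW w U p * Ent (condW (twoW w U) (fun p => U p.1) (U p.1)) f =
      twoW w U p * (fun o => Ent (prodW (condW w U (U o)) (condW w U (U o))) f) p.1 := by
    intro p
    rcases (twoW_nonneg hw U p).eq_or_lt with h0 | h0
    · rw [← h0, zero_mul, zero_mul]
    · rw [condW_twoW hw U]
      have h2 : 0 < w p.1 := by
        rcases (hw.nonneg p.1).eq_or_lt with h | h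
        · exfalso
          rw [twoW_eq, ← h, zero_mul] at h0
          exact lt_irrefl _ h0
        · exact h
      exact pr_pos hw U h2
  rw [Finset.sum_congr rfl fun p _ => h1 p,
    sum_twoW_fst hw U (fun o => Ent (prodW (condW w U (U o)) (condW w U (U o))) f)]

/-- conditional independence of the two trials -/
theorem Ent_two_pair {w : Ω → ℝ} (hw : IsPr w) (f : Ω → α) (g : Ω → β) (U : Ω → γ) :
    Ent (twoW w U) (fun p => (f p.1, g p.2, U p.1)) =
      Ent w (fun o => (f o, U o)) + Ent w (fun o => (g o, U o)) - Ent w U := by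
  have h1 := Ent_two hw (fun p : Ω × Ω => (f p.1, g p.2)) U
  have h2 : Ent (twoW w U) (fun p => ((f p.1, g p.2), U p.1)) =
      Ent (twoW w U) (fun p => (f p.1, g p.2, U p.1)) := by
    refine Ent_congr fun p p' => ?_
    simp only [Prod.mk.injEq, and_assoc]
  have h3 : ∀ o, w o * Ent (prodW (condW w U (U o)) (condW w U (U o)))
      (fun p : Ω × Ω => (f p.1, g p.2)) =
      w o * Ent (condW w U (U o)) f + w o * Ent (condW w U (U o)) g := by
    intro o
    rcases (hw.nonneg o).eq_or_lt with h0 | h0
    · rw [← h0]; ring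
    · have h4 := condW_isPr hw U (pr_pos hw U h0)
      rw [Ent_prod h4 h4]; ring
  rw [Finset.sum_congr rfl fun o _ => h3 o, Finset.sum_add_distrib, ← Ent_cond hw f U,
    ← Ent_cond hw g U, h2] at h1
  linarith

/-- with positive weight the two trials have the same value of `U` -/
theorem twoW_supp {w : Ω → ℝ} (U : Ω → γ) {p : Ω × Ω} (h : twoW w U p ≠ 0) : U p.1 = U p.2 := by
  unfold twoW at h
  by_contra h'
  rw [if_neg h'] at h
  exact h rfl

/-! ### An independent variable -/

theorem pr_indep_snd {w : Ω → ℝ} {w' : Ω' → ℝ} (hw : IsPr w) (U : Ω' → γ) (u : γ) :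
    pr (prodW w w') (fun p => U p.2) u = pr w' U u := pr_snd hw U u

theorem condW_prodW {w : Ω → ℝ} {w' : Ω' → ℝ} (hw : IsPr w) (U : Ω' → γ) (u : γ) :
    condW (prodW w w') (fun p => U p.2) u = prodW w (condW w' U u) := by
  funext p
  unfold condW
  rw [pr_snd hw U u]
  unfold prodW
  by_cases h : U p.2 = u
  · rw [if_pos h]
    simp only [h, if_true]
    ring
  · rw [if_neg h]
    simp only [h, if_false, mul_zero]

/-- `H(f | U)` for a function of `(o, o')`, where `o` is independent of `(o', U o')` -/
theorem Ent_indep {w : Ω → ℝ} {w' : Ω' → ℝ} (hw : IsPr w) (hw' : IsPr w') (f : Ω × Ω' → α)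
    (U : Ω' → γ) :
    Ent (prodW w w') (fun p => (f p, U p.2)) - Ent w' U =
      ∑ o, w' o * Ent (prodW w (condW w' U (U o))) f := by
  rw [← Ent_snd hw U, Ent_cond (hw.prod hw') f (fun p => U p.2)]
  have h1 : ∀ p : Ω × Ω', prodW w w' p * Ent (condW (prodW w w') (fun p => U p.2) (U p.2)) f =
      prodW w w' p * (fun o => Ent (prodW w (condW w' U (U o))) f) p.2 := by
    intro p
    rw [condW_prodW hw]
  rw [Finset.sum_congr rfl fun p _ => h1 p,
    sum_prodW_snd hw (fun o => Ent (prodW w (condW w' U (U o))) f)]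

end Pool.Agent.Helper25.PF
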